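import Pool.Agent.W192.HK.Parts

/-!
Project HK (MP_787500_nt and others), part FP: the finite part of a Hecke character.
-/

set_option autoImplicit false

namespace Pool.Agent.W53.HK

open Pool.Agent.W192.HK

section

variable {R : Subring ℂ} {n : ℕ} {q : Ideal R} {ψ : Ideal R → ℂ}

theorem cop_iff (α : R) : IsCoprime (sp α) q ↔ ∃ γ : R, α * γ - 1 ∈ q := by
  rw [Ideal.isCoprime_iff_exists]
  constructor
  · rintro ⟨i, hi, j, hj, hij⟩
    obtain ⟨γ, hγ⟩ := Ideal.mem_span_singleton'.1 hi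
    refine ⟨γ, ?_⟩
    have : α * γ - 1 = -j := by
      rw [← hij, ← hγ]; ring
    rw [this]
    exact q.neg_mem hj
  · rintro ⟨γ, hγ⟩
    refine ⟨α * γ, Ideal.mem_span_singleton'.2 ⟨γ, mul_comm _ _⟩, -(α * γ - 1), q.neg_mem hγ, ?_⟩
    ring

theorem cop_congr (α β : R) (h : α - β ∈ q) (hα : IsCoprime (sp α) q) : IsCoprime (sp β) q := by
  rw [cop_iff] at hα ⊢
  obtain ⟨γ, hγ⟩ := hα
  refine ⟨γ, ?_⟩
  have : β * γ - 1 = (α * γ - 1) - (α - β) * γ := by ring
  rw [this]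
  exact q.sub_mem hγ (q.mul_mem_right _ h)

theorem ne_zero_of_cop (hq : q ≠ ⊤) (α : R) (hα : IsCoprime (sp α) q) : α ≠ 0 := by
  rintro rfl
  rw [cop_iff] at hα
  obtain ⟨γ, hγ⟩ := hα
  apply hq
  rw [Ideal.eq_top_iff_one]
  have : (1 : R) = -(0 * γ - 1) := by ring
  rw [this]
  exact q.neg_mem hγ

theorem coe_ne (α : R) (h : α ≠ 0) : (α : ℂ) ≠ 0 := fun h' => h (Subtype.ext h')

theorem fp_mul (hH : HC n q ψ) (α β : R) : fp n ψ (α * β) = fp n ψ α * fp n ψ β := by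
  unfold fp
  have h1 : sp (α * β) = sp α * sp β := (Ideal.span_singleton_mul_span_singleton α β).symm
  rw [h1, hH.mul, Subring.coe_mul, mul_pow, mul_div_mul_comm]

theorem fp_zero (hH : HC n q ψ) (hq : q ≠ ⊤) (α : R) :
    fp n ψ α = 0 ↔ ¬ IsCoprime (sp α) q := by
  by_cases h0 : α = 0
  · have h1 : ¬ IsCoprime (sp α) q := fun h => ne_zero_of_cop hq α h h0
    refine ⟨fun _ => h1, fun _ => ?_⟩
    have : ψ (sp α) = 0 := (hH.zero _).2 (Or.inr h1)
    unfold fp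
    rw [this, zero_div]
  · have h1 : (α : ℂ) ^ n ≠ 0 := pow_ne_zero _ (coe_ne α h0)
    unfold fp
    rw [div_eq_zero_iff, hH.zero]
    have h2 : sp α ≠ ⊥ := by
      rw [Ne, Ideal.span_singleton_eq_bot]
      exact h0
    constructor
    · rintro ((h | h) | h)
      · exact absurd h h2
      · exact h
      · exact absurd h h1
    · intro h
      exact Or.inl (Or.inr h)

theorem fp_one' (hH : HC n q ψ) (α : R) (h0 : α ≠ 0) (h : α - 1 ∈ q) : fp n ψ α = 1 := by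
  unfold fp
  rw [hH.princ α h0 h]
  exact div_self (pow_ne_zero _ (coe_ne α h0))

theorem fp_congr (hH : HC n q ψ) (hq : q ≠ ⊤) (α β : R) (h : α - β ∈ q) :
    fp n ψ α = fp n ψ β := by
  by_cases hα : IsCoprime (sp α) q
  · have hβ := cop_congr α β h hα
    obtain ⟨γ, hγ⟩ := (cop_iff α).1 hα
    have hγ' : β * γ - 1 ∈ q := by
      have : β * γ - 1 = (α * γ - 1) - (α - β) * γ := by ring
      rw [this]
      exact q.sub_mem hγ (q.mul_mem_right _ h)
    have hne : ∀ δ : R, δ - 1 ∈ q → δ ≠ 0 := by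
      rintro δ hδ rfl
      apply hq
      rw [Ideal.eq_top_iff_one]
      have : (1 : R) = -(0 - 1) := by ring
      rw [this]
      exact q.neg_mem hδ
    have h1 := fp_one' hH (α * γ) (hne _ hγ) hγ
    have h2 := fp_one' hH (β * γ) (hne _ hγ') hγ'
    rw [fp_mul hH] at h1 h2
    have h3 : fp n ψ γ ≠ 0 := right_ne_zero_of_mul_eq_one h1
    exact mul_right_cancel₀ h3 (h1.trans h2.symm)
  · have hβ : ¬ IsCoprime (sp β) q := fun h' =>
      hα (cop_congr β α (by rw [← neg_sub]; exact q.neg_mem h) h')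
    rw [(fp_zero hH hq α).2 hα, (fp_zero hH hq β).2 hβ]

theorem fp_pow (hH : HC n q ψ) (α : R) (k : ℕ) : fp n ψ (α ^ k) = fp n ψ α ^ k := by
  induction k with
  | zero =>
    rw [pow_zero, pow_zero]
    exact fp_one' hH 1 one_ne_zero (by rw [sub_self]; exact q.zero_mem)
  | succ k ih => rw [pow_succ, fp_mul hH, ih, pow_succ]

theorem psi_one (hH : HC n q ψ) : ψ (1 : Ideal R) = 1 := by
  have h := hH.princ 1 one_ne_zero (by rw [sub_self]; exact q.zero_mem)
  have h1 : sp (1 : R) = 1 := Ideal.span_singleton_one.trans Ideal.one_eq_top.symm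
  rw [h1] at h
  simpa using h

theorem psi_pow (hH : HC n q ψ) (I : Ideal R) (k : ℕ) : ψ (I ^ k) = ψ I ^ k := by
  induction k with
  | zero => rw [pow_zero, pow_zero, psi_one hH]
  | succ k ih => rw [pow_succ, hH.mul, ih, pow_succ]

theorem fp_norm (hH : HC n q ψ) (hq : q ≠ ⊤) (hfin : Finite (R ⧸ q)) (α : R)
    (hα : IsCoprime (sp α) q) : ‖fp n ψ α‖ = 1 := by
  obtain ⟨γ, hγ⟩ := (cop_iff α).1 hα
  have h1 : (Ideal.Quotient.mk q α) * (Ideal.Quotient.mk q γ) = 1 := by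
    rw [← map_mul, ← map_one (Ideal.Quotient.mk q), Ideal.Quotient.eq]
    exact hγ
  let u : (R ⧸ q)ˣ := ⟨Ideal.Quotient.mk q α, Ideal.Quotient.mk q γ, h1, by rw [mul_comm]; exact h1⟩
  have hf : Finite (R ⧸ q)ˣ := inferInstance
  have hu : IsOfFinOrder u := isOfFinOrder_of_finite u
  obtain ⟨k, hk, hk'⟩ := isOfFinOrder_iff_pow_eq_one.1 hu
  have h2 : α ^ k - 1 ∈ q := by
    rw [← Ideal.Quotient.eq, map_pow, map_one]
    have := congrArg (fun v : (R ⧸ q)ˣ => (v : R ⧸ q)) hk'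
    simpa [u] using this
  have h3 : fp n ψ (α ^ k) = fp n ψ 1 := fp_congr hH hq _ _ h2
  rw [fp_pow hH, fp_one' hH 1 one_ne_zero (by rw [sub_self]; exact q.zero_mem)] at h3
  have h4 : ‖fp n ψ α‖ ^ k = 1 := by rw [← norm_pow, h3, norm_one]
  exact (pow_eq_one_iff_of_nonneg (norm_nonneg _) hk.ne').1 h4

end

theorem h_fp (h1 : H_BASIC) (h2 : H_CLS) : H_FP := by
  intro R ω hR n q ψ hH hq
  obtain ⟨bfin, -, -, bmul, bsp, -, btop, -, -⟩ := h1 R ω hR
  obtain ⟨h, hh, hprin, -⟩ := h2 R ω hR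
  have hfin : Finite (R ⧸ q) := bfin q hH.ne
  have nmpow : ∀ (I : Ideal R) (k : ℕ), nm (I ^ k) = nm I ^ k := by
    intro I k
    induction k with
    | zero =>
      rw [pow_zero, pow_zero]
      exact (btop _).2 Ideal.one_eq_top
    | succ k ih => rw [pow_succ, bmul, ih, pow_succ]
  refine ⟨?_, fp_mul hH, fp_zero hH hq, fp_norm hH hq hfin, fp_congr hH hq⟩
  intro I _ hcop
  obtain ⟨α, hα⟩ := hprin I
  have hcop' : IsCoprime (sp α) q := by
    rw [← hα]
    exact hcop.pow_left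
  have hne := ne_zero_of_cop hq α hcop'
  have e1 := fp_norm hH hq hfin α hcop'
  have e2 : ‖ψ I‖ ^ h = ‖(α : ℂ)‖ ^ n := by
    rw [← norm_pow, ← psi_pow hH, hα]
    unfold fp at e1
    rw [norm_div, norm_pow, div_eq_one_iff_eq] at e1
    · exact e1
    · exact pow_ne_zero _ (norm_ne_zero_iff.2 (coe_ne α hne))
  have e3 : nm I ^ h = ‖(α : ℂ)‖ ^ 2 := by
    rw [← nmpow, hα, bsp, Complex.normSq_eq_norm_sq]
  have e4 : (‖ψ I‖ ^ 2) ^ h = (nm I ^ n) ^ h := by
    rw [← pow_mul, mul_comm 2 h, pow_mul, e2, ← pow_mul, mul_comm n 2, pow_mul, ← e3, ← pow_mul,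
      ← pow_mul, mul_comm h n]
  have h0 : 0 ≤ nm I := by unfold nm; positivity
  exact (pow_left_inj₀ (by positivity) (by positivity) (by omega)).1 e4

end Pool.Agent.W53.HK
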